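import Mathlib
import Pool.Agent.H80.ContactDefs
import Pool.Agent.H80.Contact3

open Pool.Agent.H80.Contact MvPowerSeries

theorem Pool.Agent.Results.MP_65bbe4_ag.GenericEquivalent.result (p : ℕ) (hp : p.Prime)
    (F : Type) [Field F] [IsAlgClosed F] [CharP F p] (l : F) (hl : l ^ 2 = -1)
    (f : F → F → Fin 2 → MvPowerSeries (Fin 2) F)
    (hf : ∀ a b, f a b = ![X 0 ^ 2 + X 1 ^ 4, X 1 ^ 5 + C l * X 0 * X 1 ^ 3 +
      C a * X 0 * X 1 ^ (p + 3) + X 0 * X 1 ^ (p + 4) + C b * X 0 * X 1 ^ (2 * p + 3)]) :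
    (∀ a b c d : F, a ≠ 0 → c ≠ 0 → ContactEquiv (f a b) (f c d)) ∧
    (∀ P : MvPolynomial (Fin 4) F,
      (∀ v : Fin 4 → F, ContactEquiv (f (v 0) (v 1)) (f (v 2) (v 3)) →
        MvPolynomial.eval v P = 0) → P = 0) := by
  have h : ∀ a b c d : F, a ≠ 0 → c ≠ 0 → ContactEquiv (f a b) (f c d) := by
    intro a b c d ha hc
    rw [hf, hf]
    exact fam_equiv p hp l hl a b c d ha hc
  exact ⟨h, fun P hP => dense_of _ (fun v h0 h2 => h _ _ _ _ h0 h2) P hP⟩
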